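import Pool.Agent.Steklov.TwoGapsProof

/-!
# Weighted Steklov eigenvalues of the unit disc: two gaps beat three

For `α < 1` close to `1` the second weighted Steklov eigenvalue of the unit disc is strictly smaller
for the indicator of the complement of two arcs of length `π (1 - α)`, centred at the angles `0` and
`π / 2`, than for the indicator of `I^3_α`. The definitions used in the statement are in
`Pool/Agent/Steklov/Defs.lean`.
-/

open Pool.Agent.Steklov

namespace Pool.Agent.Results.MP_e8a268_an.TwoGaps

/-- For every `α < 1` close enough to `1`, the density `1_{I^3_α}` does not minimise the second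
weighted Steklov eigenvalue among the admissible densities of mean `α`: the indicator of the
complement of two arcs of length `π (1 - α)`, a quarter turn apart, has a strictly smaller one. -/
theorem result : ∃ α₀ : ℝ, 0 < α₀ ∧ α₀ < 1 ∧ ∀ α : ℝ, α₀ < α → α < 1 →
    IsDensity α (arcsDensity 3 α) ∧ IsDensity α (gapDensity (1 - α)) ∧
      eigenvalue 2 (gapDensity (1 - α)) < eigenvalue 2 (arcsDensity 3 α) :=
  two_gaps

end Pool.Agent.Results.MP_e8a268_an.TwoGaps
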